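import Mathlib

/-!
# Truncated triangular-number inequalities for `Q₀(n)` (MP_058057_co)

`Q₀ n` is the number of partitions of `n` into distinct parts, no part divisible by `4`.
-/

set_option autoImplicit false

namespace Pool.Agent.Results.MP_058057_co.FirstInequality

open Finset

/-- the partitions of `n` into distinct parts, no part divisible by `4`, as sets of parts -/
def P (n : ℕ) : Finset (Finset ℕ) :=
  (Finset.range (n + 1)).powerset.filter fun s => (∀ x ∈ s, 1 ≤ x ∧ ¬ 4 ∣ x) ∧ ∑ x ∈ s, x = n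

/-- their number -/
def Q0 (n : ℕ) : ℤ := (P n).card

/-- `Q₀ (n - t)`, which is `0` if `n < t` -/
def Q0sub (n t : ℕ) : ℤ := if t ≤ n then Q0 (n - t) else 0

/-- `ξ_0 = 1`, `ξ_n = 2 (-1)^m` if `n = 4 m^2` with `m ≥ 1`, and `ξ_n = 0` otherwise -/
noncomputable def xi (n : ℕ) : ℤ :=
  open Classical in
  if n = 0 then 1 else if h : ∃ m, n = 4 * m ^ 2 then 2 * (-1) ^ h.choose else 0

/-- `S_k(n) = ∑_{j < 2 k} (-1)^{j(j+1)/2} Q₀(n - j(j+1)/2)` -/
def S (k n : ℕ) : ℤ :=
  ∑ j ∈ Finset.range (2 * k), (-1) ^ (j * (j + 1) / 2) * Q0sub n (j * (j + 1) / 2)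

/-! ### the injection -/

lemma mem_P {n : ℕ} {s : Finset ℕ} :
    s ∈ P n ↔ (∀ x ∈ s, 1 ≤ x ∧ ¬ 4 ∣ x) ∧ ∑ x ∈ s, x = n := by
  unfold P
  rw [Finset.mem_filter, Finset.mem_powerset]
  constructor
  · exact fun h => h.2
  · intro h
    refine ⟨fun x hx => ?_, h⟩
    rw [Finset.mem_range]
    have : x ≤ ∑ y ∈ s, y := Finset.single_le_sum (f := fun y => y) (fun _ _ => Nat.zero_le _) hx
    omega

/-- the set without `1` and `2` -/
def core (s : Finset ℕ) : Finset ℕ := (s.erase 1).erase 2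

/-- the largest element -/
def top (s : Finset ℕ) : ℕ := s.sup id

/-- replace the largest element `L` by `L + 4` -/
def lift (r : Finset ℕ) : Finset ℕ := insert (top r + 4) (r.erase (top r))

/-- the injection of `P n` into `P (n + 1)` -/
def f (s : Finset ℕ) : Finset ℕ :=
  if 1 ∈ s then (if 2 ∈ s then lift (core s) else insert 2 (s.erase 1)) else insert 1 s

lemma le_top {r : Finset ℕ} {x : ℕ} (hx : x ∈ r) : x ≤ top r :=
  Finset.le_sup (f := id) hx

lemma top_mem {r : Finset ℕ} (hr : r.Nonempty) : top r ∈ r := by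
  obtain ⟨x, hx, h⟩ := Finset.exists_mem_eq_sup r hr id
  unfold top
  rw [h]
  exact hx

lemma lt_top {r : Finset ℕ} {x : ℕ} (hx : x ∈ r.erase (top r)) : x < top r :=
  lt_of_le_of_ne (le_top (Finset.mem_of_mem_erase hx)) (Finset.ne_of_mem_erase hx)

lemma notMem_lift {r : Finset ℕ} : top r + 4 ∉ r.erase (top r) := by
  intro h
  have := lt_top h
  omega

lemma top_lift {r : Finset ℕ} : top (lift r) = top r + 4 := by
  apply le_antisymm
  · apply Finset.sup_le
    intro x hx
    unfold lift at hx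
    rcases Finset.mem_insert.mp hx with h | h
    · exact h.le
    · have := lt_top h
      simp only [id]
      omega
  · exact le_top (Finset.mem_insert_self _ _)

lemma unlift {r : Finset ℕ} (hr : r.Nonempty) :
    insert (top (lift r) - 4) ((lift r).erase (top (lift r))) = r := by
  rw [top_lift, Nat.add_sub_cancel]
  unfold lift
  rw [Finset.erase_insert notMem_lift, Finset.insert_erase (top_mem hr)]

lemma mem_core {s : Finset ℕ} {x : ℕ} : x ∈ core s ↔ x ≠ 2 ∧ x ≠ 1 ∧ x ∈ s := by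
  unfold core
  rw [Finset.mem_erase, Finset.mem_erase]

lemma sum_core {s : Finset ℕ} (h1 : 1 ∈ s) (h2 : 2 ∈ s) :
    ∑ x ∈ s, x = ∑ x ∈ core s, x + 3 := by
  unfold core
  have h3 : 2 ∈ s.erase 1 := Finset.mem_erase.mpr ⟨by norm_num, h2⟩
  have e1 := Finset.sum_erase_add s (fun x => x) h1
  have e2 := Finset.sum_erase_add (s.erase 1) (fun x => x) h3
  omega

lemma insert_core {s : Finset ℕ} (h1 : 1 ∈ s) (h2 : 2 ∈ s) : insert 1 (insert 2 (core s)) = s := by
  unfold core
  have h3 : 2 ∈ s.erase 1 := Finset.mem_erase.mpr ⟨by norm_num, h2⟩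
  rw [Finset.insert_erase h3, Finset.insert_erase h1]

lemma core_spec {n : ℕ} (hn : 4 ≤ n) {s : Finset ℕ} (hs : s ∈ P n) (h1 : 1 ∈ s) (h2 : 2 ∈ s) :
    (core s).Nonempty ∧ ∀ x ∈ core s, 3 ≤ x := by
  rw [mem_P] at hs
  constructor
  · rw [Finset.nonempty_iff_ne_empty]
    intro h
    have := sum_core h1 h2
    rw [h, Finset.sum_empty] at this
    omega
  · intro x hx
    have h3 := mem_core.mp hx
    have h4 := (hs.1 x h3.2.2).1
    omega

lemma lift_spec {r : Finset ℕ} (hr : r.Nonempty) (h3 : ∀ x ∈ r, 3 ≤ x ∧ ¬ 4 ∣ x) :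
    (∀ x ∈ lift r, 3 ≤ x ∧ ¬ 4 ∣ x) ∧ ∑ x ∈ lift r, x = ∑ x ∈ r, x + 4 := by
  constructor
  · intro x hx
    unfold lift at hx
    rcases Finset.mem_insert.mp hx with h | h
    · have := h3 _ (top_mem hr)
      omega
    · exact h3 x (Finset.mem_of_mem_erase h)
  · unfold lift
    rw [Finset.sum_insert notMem_lift]
    have := Finset.sum_erase_add r (fun x => x) (top_mem hr)
    omega

lemma f_mem {n : ℕ} (hn : 4 ≤ n) {s : Finset ℕ} (hs : s ∈ P n) : f s ∈ P (n + 1) := by
  have hs' := mem_P.mp hs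
  rw [mem_P]
  unfold f
  by_cases h1 : 1 ∈ s
  · rw [if_pos h1]
    by_cases h2 : 2 ∈ s
    · rw [if_pos h2]
      obtain ⟨hne, h3⟩ := core_spec hn hs h1 h2
      obtain ⟨h4, h5⟩ := lift_spec hne fun x hx => ⟨h3 x hx, (hs'.1 x (mem_core.mp hx).2.2).2⟩
      have h6 := sum_core h1 h2
      refine ⟨fun x hx => ⟨by have := (h4 x hx).1; omega, (h4 x hx).2⟩, by omega⟩
    · rw [if_neg h2]
      have h2' : 2 ∉ s.erase 1 := fun h => h2 (Finset.mem_of_mem_erase h)
      rw [Finset.sum_insert h2']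
      have := Finset.sum_erase_add s (fun x => x) h1
      refine ⟨fun x hx => ?_, by omega⟩
      rcases Finset.mem_insert.mp hx with h | h
      · subst h; norm_num
      · exact hs'.1 x (Finset.mem_of_mem_erase h)
  · rw [if_neg h1, Finset.sum_insert h1]
    refine ⟨fun x hx => ?_, by omega⟩
    rcases Finset.mem_insert.mp hx with h | h
    · subst h; norm_num
    · exact hs'.1 x h

/-- the inverse -/
def g (t : Finset ℕ) : Finset ℕ :=
  if 1 ∈ t then t.erase 1 else if 2 ∈ t then insert 1 (t.erase 2)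
  else insert 1 (insert 2 (insert (top t - 4) (t.erase (top t))))

lemma g_f {n : ℕ} (hn : 4 ≤ n) {s : Finset ℕ} (hs : s ∈ P n) : g (f s) = s := by
  have hs' := mem_P.mp hs
  unfold f
  by_cases h1 : 1 ∈ s
  · rw [if_pos h1]
    by_cases h2 : 2 ∈ s
    · rw [if_pos h2]
      obtain ⟨hne, h3⟩ := core_spec hn hs h1 h2
      obtain ⟨h4, h5⟩ := lift_spec hne fun x hx => ⟨h3 x hx, (hs'.1 x (mem_core.mp hx).2.2).2⟩
      unfold g
      rw [if_neg, if_neg, unlift hne, insert_core h1 h2]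
      · intro h
        have := (h4 2 h).1
        omega
      · intro h
        have := (h4 1 h).1
        omega
    · rw [if_neg h2]
      have h2' : 2 ∉ s.erase 1 := fun h => h2 (Finset.mem_of_mem_erase h)
      unfold g
      rw [if_neg, if_pos (Finset.mem_insert_self _ _), Finset.erase_insert h2',
        Finset.insert_erase h1]
      intro h
      rcases Finset.mem_insert.mp h with h | h
      · norm_num at h
      · exact absurd rfl (Finset.ne_of_mem_erase h)
  · rw [if_neg h1]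
    unfold g
    rw [if_pos (Finset.mem_insert_self _ _), Finset.erase_insert h1]

/-- a set which is not in the image of `f` -/
lemma not_image {n : ℕ} {e : Finset ℕ} (he : ∀ x ∈ e, 3 ≤ x) {y z : ℕ}
    (hy : y ∈ e) (hz : z ∈ e) (hyz : y < z) (hzm : ∀ x ∈ e, x ≤ z) (h4 : z ≤ y + 4)
    {s : Finset ℕ} (hs : s ∈ P n) : f s ≠ e := by
  have hs' := mem_P.mp hs
  intro h
  unfold f at h
  by_cases h1 : 1 ∈ s
  · rw [if_pos h1] at h
    by_cases h2 : 2 ∈ s
    · rw [if_pos h2] at h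
      have ht : top e = z := by
        apply le_antisymm
        · exact Finset.sup_le fun x hx => hzm x hx
        · exact le_top hz
      have ht2 : top e = top (core s) + 4 := by rw [← h, top_lift]
      rw [← h] at hy
      unfold lift at hy
      rcases Finset.mem_insert.mp hy with h5 | h5
      · omega
      · have := lt_top h5
        omega
    · rw [if_neg h2] at h
      have := he 2 (h ▸ Finset.mem_insert_self _ _)
      omega
  · rw [if_neg h1] at h
    have := he 1 (h ▸ Finset.mem_insert_self _ _)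
    omega

lemma card_step {n : ℕ} (hn : 4 ≤ n) (E : Finset (Finset ℕ)) (hE : E ⊆ P (n + 1))
    (hE2 : ∀ e ∈ E, (∀ x ∈ e, 3 ≤ x) ∧ ∃ y ∈ e, ∃ z ∈ e, y < z ∧ (∀ x ∈ e, x ≤ z) ∧ z ≤ y + 4) :
    Q0 n + E.card ≤ Q0 (n + 1) := by
  classical
  have hinj : Set.InjOn f (P n : Set (Finset ℕ)) := by
    intro s hs t ht h
    rw [← g_f hn hs, ← g_f hn ht, h]
  have h1 : ((P n).image f).card = (P n).card := Finset.card_image_of_injOn hinj
  have h2 : Disjoint ((P n).image f) E := by
    rw [Finset.disjoint_left]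
    intro t ht htE
    obtain ⟨s, hs, rfl⟩ := Finset.mem_image.mp ht
    obtain ⟨ha, y, hy, z, hz, hyz, hm, h4⟩ := hE2 _ htE
    exact not_image ha hy hz hyz hm h4 hs rfl
  have h3 : (P n).image f ∪ E ⊆ P (n + 1) := by
    apply Finset.union_subset _ hE
    intro t ht
    obtain ⟨s, hs, rfl⟩ := Finset.mem_image.mp ht
    exact f_mem hn hs
  have h4 := Finset.card_le_card h3
  rw [Finset.card_union_of_disjoint h2, h1] at h4
  unfold Q0
  exact_mod_cast h4

lemma pair_ok {n y z : ℕ} (hy : 3 ≤ y) (hy4 : ¬ 4 ∣ y) (hz4 : ¬ 4 ∣ z) (hyz : y < z)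
    (h4 : z ≤ y + 4) (hs : y + z = n) :
    ({y, z} : Finset ℕ) ∈ P n ∧ ((∀ x ∈ ({y, z} : Finset ℕ), 3 ≤ x) ∧
      ∃ u ∈ ({y, z} : Finset ℕ), ∃ v ∈ ({y, z} : Finset ℕ), u < v ∧
        (∀ x ∈ ({y, z} : Finset ℕ), x ≤ v) ∧ v ≤ u + 4) := by
  refine ⟨mem_P.mpr ⟨?_, ?_⟩, ?_, y, by simp, z, by simp, hyz, ?_, h4⟩
  · intro x hx
    rcases Finset.mem_insert.mp hx with h | h
    · subst h; exact ⟨by omega, hy4⟩
    · rw [Finset.mem_singleton] at h; subst h; exact ⟨by omega, hz4⟩
  · rw [Finset.sum_pair hyz.ne]; exact hs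
  · intro x hx
    rcases Finset.mem_insert.mp hx with h | h
    · omega
    · rw [Finset.mem_singleton] at h; omega
  · intro x hx
    rcases Finset.mem_insert.mp hx with h | h
    · omega
    · rw [Finset.mem_singleton] at h; omega

/-- `Q₀(n - 1) < Q₀(n)` for `n ≥ 8` -/
lemma step_one {n : ℕ} (hn : 8 ≤ n) : Q0 (n - 1) + 1 ≤ Q0 n := by
  have key : ∃ y z : ℕ, 3 ≤ y ∧ ¬ 4 ∣ y ∧ ¬ 4 ∣ z ∧ y < z ∧ z ≤ y + 4 ∧ y + z = n := by
    obtain ⟨t, ht⟩ : ∃ t, n / 8 = t := ⟨_, rfl⟩
    have hr : n % 8 < 8 := Nat.mod_lt _ (by norm_num)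
    have hd := Nat.div_add_mod n 8
    interval_cases h : n % 8
    · exact ⟨4 * t - 1, 4 * t + 1, by omega, by omega, by omega, by omega, by omega, by omega⟩
    · exact ⟨4 * t - 1, 4 * t + 2, by omega, by omega, by omega, by omega, by omega, by omega⟩
    · exact ⟨4 * t - 1, 4 * t + 3, by omega, by omega, by omega, by omega, by omega, by omega⟩
    · exact ⟨4 * t + 1, 4 * t + 2, by omega, by omega, by omega, by omega, by omega, by omega⟩
    · exact ⟨4 * t + 1, 4 * t + 3, by omega, by omega, by omega, by omega, by omega, by omega⟩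
    · exact ⟨4 * t + 2, 4 * t + 3, by omega, by omega, by omega, by omega, by omega, by omega⟩
    · exact ⟨4 * t + 1, 4 * t + 5, by omega, by omega, by omega, by omega, by omega, by omega⟩
    · exact ⟨4 * t + 2, 4 * t + 5, by omega, by omega, by omega, by omega, by omega, by omega⟩
  obtain ⟨y, z, h1, h2, h3, h4, h5, h6⟩ := key
  have hp := pair_ok h1 h2 h3 h4 h5 h6
  have hn1 : n - 1 + 1 = n := by omega
  have := card_step (n := n - 1) (by omega) {({y, z} : Finset ℕ)}
    (by rw [hn1]; exact Finset.singleton_subset_iff.mpr hp.1)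
    (by intro e he; rw [Finset.mem_singleton] at he; subst he; exact hp.2)
  rw [hn1, Finset.card_singleton] at this
  exact_mod_cast this

/-- `Q₀(n - 1) + 3 ≤ Q₀(n)` for `n = 16 u` -/
lemma step_three {u : ℕ} (hu : 1 ≤ u) : Q0 (16 * u - 1) + 3 ≤ Q0 (16 * u) := by
  classical
  have hn1 : 16 * u - 1 + 1 = 16 * u := by omega
  have p1 := pair_ok (n := 16 * u) (y := 8 * u - 1) (z := 8 * u + 1) (by omega) (by omega)
    (by omega) (by omega) (by omega) (by omega)
  have p2 := pair_ok (n := 16 * u) (y := 8 * u - 2) (z := 8 * u + 2) (by omega) (by omega)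
    (by omega) (by omega) (by omega) (by omega)
  have p3 : ({3, 8 * u - 2, 8 * u - 1} : Finset ℕ) ∈ P (16 * u) ∧
      ((∀ x ∈ ({3, 8 * u - 2, 8 * u - 1} : Finset ℕ), 3 ≤ x) ∧
      ∃ y ∈ ({3, 8 * u - 2, 8 * u - 1} : Finset ℕ), ∃ z ∈ ({3, 8 * u - 2, 8 * u - 1} : Finset ℕ),
        y < z ∧ (∀ x ∈ ({3, 8 * u - 2, 8 * u - 1} : Finset ℕ), x ≤ z) ∧ z ≤ y + 4) := by
    have hm : ∀ x, x ∈ ({3, 8 * u - 2, 8 * u - 1} : Finset ℕ) ↔
        x = 3 ∨ x = 8 * u - 2 ∨ x = 8 * u - 1 := by
      intro x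
      simp
    refine ⟨mem_P.mpr ⟨?_, ?_⟩, ?_, 8 * u - 2, by simp, 8 * u - 1, by simp, by omega, ?_, by omega⟩
    · intro x hx
      rw [hm] at hx
      omega
    · rw [Finset.sum_insert, Finset.sum_pair (by omega)]
      · omega
      · simp only [Finset.mem_insert, Finset.mem_singleton]
        omega
    · intro x hx
      rw [hm] at hx
      omega
    · intro x hx
      rw [hm] at hx
      omega
  have hne1 : ({8 * u - 1, 8 * u + 1} : Finset ℕ) ≠ {8 * u - 2, 8 * u + 2} := by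
    intro h
    have : 8 * u + 2 ∈ ({8 * u - 1, 8 * u + 1} : Finset ℕ) := h ▸ (by simp)
    simp only [Finset.mem_insert, Finset.mem_singleton] at this
    omega
  have hne2 : ({8 * u - 1, 8 * u + 1} : Finset ℕ) ≠ {3, 8 * u - 2, 8 * u - 1} := by
    intro h
    have : 8 * u + 1 ∈ ({3, 8 * u - 2, 8 * u - 1} : Finset ℕ) := h ▸ (by simp)
    simp only [Finset.mem_insert, Finset.mem_singleton] at this
    omega
  have hne3 : ({8 * u - 2, 8 * u + 2} : Finset ℕ) ≠ {3, 8 * u - 2, 8 * u - 1} := by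
    intro h
    have : 8 * u + 2 ∈ ({3, 8 * u - 2, 8 * u - 1} : Finset ℕ) := h ▸ (by simp)
    simp only [Finset.mem_insert, Finset.mem_singleton] at this
    omega
  have := card_step (n := 16 * u - 1) (by omega)
    {({8 * u - 1, 8 * u + 1} : Finset ℕ), {8 * u - 2, 8 * u + 2}, {3, 8 * u - 2, 8 * u - 1}}
    (by
      rw [hn1]
      intro e he
      simp only [Finset.mem_insert, Finset.mem_singleton] at he
      rcases he with rfl | rfl | rfl
      · exact p1.1
      · exact p2.1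
      · exact p3.1)
    (by
      intro e he
      simp only [Finset.mem_insert, Finset.mem_singleton] at he
      rcases he with rfl | rfl | rfl
      · exact p1.2
      · exact p2.2
      · exact p3.2)
  rw [hn1, Finset.card_insert_of_notMem, Finset.card_pair hne3] at this
  · exact_mod_cast this
  · simp only [Finset.mem_insert, Finset.mem_singleton]
    exact fun h => h.elim hne1 hne2

/-! ### small values and the function `ξ` -/

lemma small : Q0 0 = 1 ∧ Q0 1 = 1 ∧ Q0 2 = 1 ∧ Q0 3 = 2 ∧ Q0 4 = 1 ∧ Q0 5 = 2 ∧ Q0 6 = 3 ∧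
    Q0 7 = 3 := by
  decide +kernel

lemma xi_zero : xi 0 = 1 := by
  unfold xi
  simp

lemma xi_of {m : ℕ} (hm : 1 ≤ m) : xi (4 * m ^ 2) = 2 * (-1) ^ m := by
  unfold xi
  have h0 : 4 * m ^ 2 ≠ 0 := by positivity
  have hex : ∃ l, 4 * m ^ 2 = 4 * l ^ 2 := ⟨m, rfl⟩
  rw [if_neg h0, dif_pos hex]
  have h1 : 4 * m ^ 2 = 4 * hex.choose ^ 2 := hex.choose_spec
  have h3 : hex.choose ^ 2 = m ^ 2 := by omega
  have h2 : hex.choose = m := Nat.pow_left_injective (n := 2) (by norm_num) h3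
  rw [h2]

lemma xi_none {n : ℕ} (h0 : n ≠ 0) (h : ¬ ∃ m, n = 4 * m ^ 2) : xi n = 0 := by
  unfold xi
  rw [if_neg h0, dif_neg h]

lemma S_one (n : ℕ) : S 1 n = Q0 n - Q0sub n 1 := by
  unfold S
  simp only [mul_one, Finset.sum_range_succ, Finset.sum_range_zero]
  have h0 : Q0sub n 0 = Q0 n := by simp [Q0sub]
  norm_num [h0]
  ring

lemma not_sq {n : ℕ} (h : ∀ m, n ≠ 4 * m ^ 2) (h0 : n ≠ 0) : xi n = 0 :=
  xi_none h0 fun ⟨m, hm⟩ => h m hm

lemma sq_small {n : ℕ} (h : n ≤ 7) : (∀ m, n ≠ 4 * m ^ 2) ∨ n = 0 ∨ n = 4 := by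
  by_contra hcon
  push Not at hcon
  obtain ⟨⟨m, hm⟩, h0, h4⟩ := hcon
  have hm2 : m < 2 := by nlinarith
  interval_cases m <;> omega

/-- **The case `k = 1` of the corrected statement.** For every `n` the inequality
`S_1(n) - ξ_n ≥ 0` holds, and it is strict if and only if `n ≥ 3` and `n ≠ 7`. -/
theorem result : ∀ n : ℕ, 0 ≤ S 1 n - xi n ∧ (0 < S 1 n - xi n ↔ 3 ≤ n ∧ n ≠ 7) := by
  intro n
  obtain ⟨q0, q1, q2, q3, q4, q5, q6, q7⟩ := small
  rw [S_one]
  have hx4 : xi 4 = -2 := by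
    have := xi_of (m := 1) le_rfl
    simpa using this
  by_cases hn : n ≤ 7
  · have hxi : (n = 0 ∧ xi n = 1) ∨ (n = 4 ∧ xi n = -2) ∨ (n ≠ 0 ∧ n ≠ 4 ∧ xi n = 0) := by
      rcases sq_small hn with h | h | h
      · by_cases h0 : n = 0
        · exact Or.inl ⟨h0, h0 ▸ xi_zero⟩
        · by_cases h4 : n = 4
          · exact absurd (h4.trans (by norm_num : 4 = 4 * 1 ^ 2)) (h 1)
          · exact Or.inr (Or.inr ⟨h0, h4, not_sq h h0⟩)
      · exact Or.inl ⟨h, h ▸ xi_zero⟩
      · exact Or.inr (Or.inl ⟨h, h ▸ hx4⟩)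
    unfold Q0sub
    interval_cases n <;> simp_all
  · have hn8 : 8 ≤ n := by omega
    have hs1 : Q0sub n 1 = Q0 (n - 1) := by
      unfold Q0sub
      rw [if_pos (by omega)]
    rw [hs1]
    have h1 := step_one hn8
    have key : 0 < Q0 n - Q0 (n - 1) - xi n := by
      by_cases hsq : ∃ m, n = 4 * m ^ 2
      · obtain ⟨m, hm⟩ := hsq
        have hm1 : 1 ≤ m := by
          rcases Nat.eq_zero_or_pos m with h | h
          · subst h
            omega
          · exact h
        have hxi : xi n = 2 * (-1) ^ m := by rw [hm]; exact xi_of hm1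
        rcases Nat.even_or_odd' m with ⟨v, hv | hv⟩
        · have hv1 : 1 ≤ v ^ 2 := by
            have : 1 ≤ v := by omega
            exact Nat.one_le_pow _ _ this
          have hn16 : n = 16 * v ^ 2 := by rw [hm, hv]; ring
          have h3 := step_three hv1
          rw [← hn16] at h3
          rw [hxi, hv, pow_mul]
          norm_num
          linarith
        · rw [hxi, hv, pow_succ, pow_mul]
          norm_num
          linarith
      · rw [xi_none (by omega) hsq]
        linarith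
    exact ⟨key.le, fun _ => by omega, fun _ => key⟩

end Pool.Agent.Results.MP_058057_co.FirstInequality
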