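import Mathlib

/-!
# The truncated triangular-number inequalities for `Q₀(n)`: the strictness fails for `k = 1`, `n = 7`

`Q₀(7) = Q₀(6) = 3`: the partitions of `7` into distinct parts not divisible by `4` are
`7, 6 + 1, 5 + 2`, those of `6` are `6, 5 + 1, 3 + 2 + 1`. So `S_1(7) = 0 = ξ_7` although
`7 ≥ 1 · (2 · 1 + 1)`, and the statement of Q1 is false for `k = 1`, `n = 7`.
-/

set_option autoImplicit false

namespace Pool.Agent.Results.MP_058057_co.StrictnessFails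

/-- `Q₀(n)`: the number of partitions of `n` into distinct parts, no part being divisible by `4`;
such a partition is given by its set of parts. -/
def Q₀ (n : ℕ) : ℕ :=
  ((Finset.Icc 1 n).powerset.filter fun A => (∀ i ∈ A, ¬ 4 ∣ i) ∧ ∑ i ∈ A, i = n).card

/-- `Q₀(m)` for integers `m`, with the value `0` for `m < 0` -/
def Q (m : ℤ) : ℤ := if 0 ≤ m then (Q₀ m.toNat : ℤ) else 0

/-- `ξ_0 = 1`, `ξ_n = 2 (-1)^m` if `n = 4 m²` with `m ≥ 1`, and `ξ_n = 0` otherwise -/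
def ξ (n : ℕ) : ℤ :=
  if n = 0 then 1 else ∑ m ∈ (Finset.Icc 1 n).filter (fun m => n = 4 * m ^ 2), 2 * (-1) ^ m

/-- `S_k(n) = ∑_{j < 2k} (-1)^(j(j+1)/2) Q₀(n - j(j+1)/2)` -/
def S (k n : ℕ) : ℤ :=
  ∑ j ∈ Finset.range (2 * k), (-1) ^ (j * (j + 1) / 2) * Q ((n : ℤ) - ((j * (j + 1) / 2 : ℕ) : ℤ))

theorem q6 : Q₀ 6 = 3 := by decide +kernel

theorem q7 : Q₀ 7 = 3 := by decide +kernel

theorem xi7 : ξ 7 = 0 := by decide +kernel

theorem s7 : S 1 7 = 0 := by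
  have h : S 1 7 = Q 7 - Q 6 := by
    unfold S
    norm_num [Finset.sum_range_succ]
    ring
  rw [h]
  unfold Q
  norm_num
  have e7 : (7 : ℤ).toNat = 7 := rfl
  have e6 : (6 : ℤ).toNat = 6 := rfl
  rw [e7, e6, q6, q7]
  norm_num

/-- **Q1 is false.** The statement `for all n ≥ 0 and k ≥ 1, (-1)^(k-1) (S_k(n) - ξ_n) ≥ 0, and this
inequality is strict if and only if n ≥ k (2 k + 1)` fails for `k = 1`, `n = 7`, where
`S_1(7) = ξ_7 = 0` and `7 ≥ 3`. -/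
theorem result :
    (¬ ∀ n k : ℕ, 1 ≤ k → 0 ≤ (-1) ^ (k - 1) * (S k n - ξ n) ∧
      (0 < (-1) ^ (k - 1) * (S k n - ξ n) ↔ k * (2 * k + 1) ≤ n)) ∧
    Q₀ 7 = 3 ∧ Q₀ 6 = 3 ∧ S 1 7 = 0 ∧ ξ 7 = 0 := by
  refine ⟨fun h => ?_, q7, q6, s7, xi7⟩
  have h1 := (h 7 1 le_rfl).2.2 (by norm_num)
  rw [s7, xi7] at h1
  norm_num at h1

end Pool.Agent.Results.MP_058057_co.StrictnessFails
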